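import Mathlib
import Pool.Agent.TH899.UG.BoxP

/-! The tuples which are not good are rare, with a power saving, in every product of finite sets of the
same size, if every box contains a good tuple. -/

set_option autoImplicit false

namespace Pool.Agent.H35_TL

open Finset

open Classical in
/-- the tuples of distinct integers, without a local obstruction at the primes up to `z`, which are
not good -/
noncomputable def badT {T : ℕ} (z : ℕ) (G : Finset ℕ → Prop) (V : Fin T → Finset ℕ) :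
    Finset (Fin T → ℕ) :=
  (Fintype.piFinset V).filter (fun x => Function.Injective x ∧
    (∀ p : ℕ, p.Prime → p ≤ z → ∃ r : ℤ, ∀ i, ¬ (p : ℤ) ∣ r + x i) ∧ ¬ G (univ.image x))

open Classical in
theorem bad_few (T K z : ℕ) : ∃ (C δ : ℝ), 0 < δ ∧ 0 < C ∧ ∀ (G : Finset ℕ → Prop)
    (V : Fin T → Finset ℕ) (L : ℕ), 1 ≤ L → (∀ i, (V i).card = L) →
    (∀ X : Fin T → Fin K → ℕ, Function.Injective (fun x : Fin T × Fin K => X x.1 x.2) →
      (∀ i c, X i c ∈ V i) →
      (∀ p : ℕ, p.Prime → p ≤ z → ∃ r : ℤ, ∀ i c, ¬ (p : ℤ) ∣ r + X i c) →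
      ∃ c : Fin T → Fin K, G (univ.image (fun i => X i (c i)))) →
    ((badT z G V).card : ℝ) ≤ C * (L : ℝ) ^ ((T : ℝ) - δ) := by
  obtain ⟨Cb, E, hCb, hbox⟩ := Pool.Agent.TH899.UG.box_pow K T
  set P : ℕ := z.factorial with hP
  have hP0 : 0 < P := Nat.factorial_pos z
  have hPr : (0 : ℝ) < (P : ℝ) ^ T := by positivity
  refine ⟨(P : ℝ) ^ T * Cb, 1 / ((E : ℝ) + 1), by positivity, by positivity, ?_⟩
  intro G V L hL hV hX
  by_contra hcon
  rw [not_le] at hcon
  set B := badT z G V with hB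
  have hLr : (1 : ℝ) ≤ L := by exact_mod_cast hL
  have hL0 : (0 : ℝ) < L := by linarith
  set δ : ℝ := 1 / ((E : ℝ) + 1) with hδ
  have hprod : (∏ i, ((V i).card : ℝ)) = (L : ℝ) ^ T := by
    rw [prod_congr rfl (fun i _ => by rw [hV i]), prod_const, card_univ, Fintype.card_fin]
  have hBle : (B.card : ℝ) ≤ (L : ℝ) ^ T := by
    have h1 : B.card ≤ (Fintype.piFinset V).card := card_le_card (filter_subset _ _)
    rw [Fintype.card_piFinset] at h1
    have h2 : (B.card : ℝ) ≤ ((∏ i, (V i).card : ℕ) : ℝ) := by exact_mod_cast h1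
    push_cast at h2
    rwa [hprod] at h2
  set ε : ℝ := (B.card : ℝ) / ((P : ℝ) ^ T * (L : ℝ) ^ T) with hε
  have hLT : (0 : ℝ) < (L : ℝ) ^ T := by positivity
  have hsplit : (L : ℝ) ^ ((T : ℝ) - δ) = (L : ℝ) ^ T * (L : ℝ) ^ (-δ) := by
    rw [sub_eq_add_neg, Real.rpow_add hL0, Real.rpow_natCast]
  have hεlow : Cb * (L : ℝ) ^ (-δ) < ε := by
    rw [hε, lt_div_iff₀ (by positivity)]
    calc Cb * (L : ℝ) ^ (-δ) * ((P : ℝ) ^ T * (L : ℝ) ^ T)
        = (P : ℝ) ^ T * Cb * ((L : ℝ) ^ T * (L : ℝ) ^ (-δ)) := by ring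
      _ < B.card := by rw [← hsplit]; exact hcon
  have hLδ : (0 : ℝ) < (L : ℝ) ^ (-δ) := Real.rpow_pos_of_pos hL0 _
  have hε0 : 0 < ε := lt_trans (by positivity) hεlow
  have hP1 : (1 : ℝ) ≤ (P : ℝ) ^ T := one_le_pow₀ (by exact_mod_cast hP0)
  have hε1 : ε ≤ 1 := by
    rw [hε, div_le_one (by positivity)]
    nlinarith
  have hcond : ∀ i, Cb / ε ^ E ≤ ((V i).card : ℝ) := by
    intro i
    rw [hV i, div_le_iff₀ (by positivity)]
    have h1 : ε ^ (E + 1) ≤ ε ^ E := pow_le_pow_of_le_one hε0.le hε1 (by omega)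
    have h2 : (Cb * (L : ℝ) ^ (-δ)) ^ (E + 1) ≤ ε ^ (E + 1) :=
      pow_le_pow_left₀ (by positivity) hεlow.le _
    have h3 : (Cb * (L : ℝ) ^ (-δ)) ^ (E + 1) = Cb ^ (E + 1) * (L : ℝ)⁻¹ := by
      rw [mul_pow]
      congr 1
      rw [← Real.rpow_natCast, ← Real.rpow_mul hL0.le]
      have h4 : -δ * ((E + 1 : ℕ) : ℝ) = -1 := by
        rw [hδ]
        push_cast
        field_simp
      rw [h4, Real.rpow_neg_one]
    have h4 : Cb ≤ Cb ^ (E + 1) := by
      calc Cb = Cb ^ 1 := (pow_one _).symm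
        _ ≤ Cb ^ (E + 1) := pow_le_pow_right₀ hCb (by omega)
    have h5 : Cb ^ (E + 1) * (L : ℝ)⁻¹ ≤ ε ^ E := by
      rw [← h3]
      exact h2.trans h1
    have h6 : Cb ^ (E + 1) ≤ L * ε ^ E := by
      have h7 := mul_le_mul_of_nonneg_left h5 hL0.le
      have h8 : (L : ℝ) * (Cb ^ (E + 1) * (L : ℝ)⁻¹) = Cb ^ (E + 1) := by
        field_simp
      rwa [h8] at h7
    exact h4.trans h6
  -- a residue vector
  have hne : (Fintype.piFinset (fun _ : Fin T => range P)).Nonempty :=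
    ⟨fun _ => 0, Fintype.mem_piFinset.2 fun _ => mem_range.2 hP0⟩
  obtain ⟨ρ, _, hρ⟩ := Finset.exists_le_card_fiber_of_nsmul_le_card_of_maps_to
    (s := B) (t := Fintype.piFinset (fun _ : Fin T => range P))
    (f := fun x => fun i => x i % P)
    (fun x _ => Fintype.mem_piFinset.2 fun i => mem_range.2 (Nat.mod_lt _ hP0)) hne
    (b := ε * (L : ℝ) ^ T) (by
      rw [nsmul_eq_mul, Fintype.card_piFinset, prod_const, card_univ, Fintype.card_fin, card_range]
      push_cast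
      rw [hε]
      apply le_of_eq
      field_simp)
  obtain ⟨A, hA1, hA2⟩ := hbox ε hε0 hε1 ℕ V hcond (B.filter (fun x => (fun i => x i % P) = ρ))
    (fun x hx => (mem_filter.1 (mem_filter.1 hx).1).1) (by rw [hprod]; exact hρ)
  have hmem : ∀ c : Fin T → Fin K, (∀ i, A i (c i) ∈ V i) ∧
      Function.Injective (fun i => A i (c i)) ∧
      (∀ p : ℕ, p.Prime → p ≤ z → ∃ r : ℤ, ∀ i, ¬ (p : ℤ) ∣ r + (A i (c i) : ℕ)) ∧
      ¬ G (univ.image (fun i => A i (c i))) ∧ ∀ i, A i (c i) % P = ρ i := by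
    intro c
    obtain ⟨h1, h2⟩ := mem_filter.1 (hA2 c)
    rw [hB, badT, mem_filter, Fintype.mem_piFinset] at h1
    exact ⟨h1.1, h1.2.1, h1.2.2.1, h1.2.2.2, fun i => congrFun h2 i⟩
  rcases Nat.eq_zero_or_pos K with hK | hK
  · subst hK
    rcases Nat.eq_zero_or_pos T with hT | hT
    · subst hT
      obtain ⟨c, hc⟩ := hX A (fun x => x.1.elim0) (fun i => i.elim0) (fun p _ _ => ⟨0, fun i => i.elim0⟩)
      exact (hmem c).2.2.2.1 hc
    · have h1 : (0 : ℝ) < B.card := by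
        have h2 : 0 < Cb * (L : ℝ) ^ (-δ) := by positivity
        by_contra h3
        have h4 : (B.card : ℝ) = 0 := le_antisymm (not_lt.1 h3) (by positivity)
        rw [hε, h4, zero_div] at hε0
        exact lt_irrefl _ hε0
      -- `K = 0` is excluded by the hypothesis
      exfalso
      obtain ⟨c, _⟩ := hX A (fun x => x.2.elim0) (fun i c => c.elim0) (fun p _ _ => ⟨0, fun i c => c.elim0⟩)
      exact (c ⟨0, hT⟩).elim0
  have c₀ : Fin K := ⟨0, hK⟩
  have hres : ∀ i c, A i c % P = ρ i := fun i c => (hmem (fun _ => c)).2.2.2.2 i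
  obtain ⟨c, hc⟩ := hX A (by
    rintro ⟨i, c⟩ ⟨i', c'⟩ h
    simp only at h
    by_cases hi : i = i'
    · subst hi
      rw [hA1 i h]
    · exfalso
      have h1 := (hmem (fun j => if j = i then c else c')).2.1
      have h2 : (fun j => A j (if j = i then c else c')) i =
          (fun j => A j (if j = i then c else c')) i' := by
        simp only [if_true]
        rw [if_neg (fun h => hi h.symm)]
        exact h
      exact hi (h1 h2)) (fun i c => (hmem (fun _ => c)).1 i) (by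
    intro p hp hpz
    obtain ⟨r, hr⟩ := (hmem (fun _ => c₀)).2.2.1 p hp hpz
    refine ⟨r, fun i c hd => hr i ?_⟩
    have h1 : A i c ≡ A i c₀ [MOD P] := (hres i c).trans (hres i c₀).symm
    have h2 : A i c ≡ A i c₀ [MOD p] := h1.of_dvd (hp.dvd_factorial.2 hpz)
    have h3 : (p : ℤ) ∣ (A i c₀ : ℤ) - A i c := (Int.natCast_modEq_iff.2 h2).dvd
    have h4 : r + (A i c₀ : ℤ) = (r + A i c) + ((A i c₀ : ℤ) - A i c) := by ring
    rw [h4]
    exact dvd_add hd h3)
  exact (hmem c).2.2.2.1 hc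

end Pool.Agent.H35_TL
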