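import Mathlib
import Pool.Agent.Y827.RO.NarF

/-! Three families of linear forms with different slopes: the coloured Maynard-Tao theorem with the
constant `18 / 5` gives a hit in two families, or `5 / 6` of the classes of one family. -/

set_option autoImplicit false

namespace Pool.Agent.H35_TL

open Finset Filter Topology
open Pool.Agent.Y827.GS (Adf cntN)

/-- the positions: all three forms are of the size of `N` on `[N / 16, N / 2]` -/
def Win (a b : Fin 3 → ℤ) (N : ℕ) : Prop :=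
  ∀ i, 10 * |b i| ≤ 9 * (N : ℤ) ∧
    ∀ t : ℝ, (N : ℝ) / 16 ≤ t → t ≤ N / 2 → (N : ℝ) / 24 ≤ a i * t + b i

/-- the number of the `n` for which two forms are prime -/
def pairN (a b a' b' : ℤ) (N : ℕ) : ℕ :=
  ((Icc 1 N).filter (fun n : ℕ => (a * (n : ℤ) + b).toNat.Prime ∧ (a' * (n : ℤ) + b').toNat.Prime)).card

/-- the number of the `m` for which all `m + x` are prime -/
def goodN (F : Finset ℕ) (M : ℕ) : ℕ :=
  ((Icc 1 M).filter (fun m : ℕ => ∀ x ∈ F, (m + x).Prime)).card

/-- a common residue -/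
theorem crt (z : ℕ) (X : Finset ℕ) (h : ∀ p : ℕ, p.Prime → p ≤ z → ∃ r : ℤ, ∀ x ∈ X, ¬ (p : ℤ) ∣ r + x) :
    ∃ s : ℤ, ∀ p : ℕ, p.Prime → p ≤ z → ∀ x ∈ X, ¬ (p : ℤ) ∣ s + x := by
  classical
  have h' : ∀ p : ℕ, ∃ r : ℤ, p.Prime → p ≤ z → ∀ x ∈ X, ¬ (p : ℤ) ∣ r + x := by
    intro p
    by_cases hp : p.Prime ∧ p ≤ z
    · obtain ⟨r, hr⟩ := h p hp.1 hp.2
      exact ⟨r, fun _ _ => hr⟩
    · exact ⟨0, fun h1 h2 => absurd ⟨h1, h2⟩ hp⟩
  choose r hr using h'
  set t : Finset ℕ := (range (z + 1)).filter Nat.Prime with ht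
  obtain ⟨s, hs⟩ := Nat.chineseRemainderOfFinset (fun p : ℕ => (r p % p).toNat) (fun p : ℕ => p) t
    (fun p hp => (mem_filter.1 hp).2.ne_zero)
    (fun p hp q hq hpq => (Nat.coprime_primes (mem_filter.1 hp).2 (mem_filter.1 hq).2).2 hpq)
  refine ⟨s, fun p hp hpz x hx hdvd => ?_⟩
  have h1 := hs p (mem_filter.2 ⟨mem_range.2 (by omega), hp⟩)
  have hp0 : (p : ℤ) ≠ 0 := by exact_mod_cast hp.ne_zero
  have h2 : (p : ℤ) ∣ (s : ℤ) - r p := by
    have h3 : ((r p % p).toNat : ℤ) = r p % p := Int.toNat_of_nonneg (Int.emod_nonneg _ hp0)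
    have h4 : (s : ℤ) ≡ ((r p % p).toNat : ℤ) [ZMOD p] := (Int.natCast_modEq_iff.2 h1)
    rw [h3] at h4
    have h5 : (s : ℤ) ≡ r p [ZMOD p] := h4.trans (Int.mod_modEq _ _)
    exact h5.symm.dvd
  refine hr p hp hpz x hx ?_
  have h3 : r p + (x : ℤ) = (s + x) - (s - r p) := by ring
  rw [h3]
  exact dvd_sub hdvd h2

theorem shift_dvd (P s b : ℤ) : P ∣ (b + (s - b) % P) - s := by
  have h := Int.emod_add_mul_ediv (s - b) P
  refine ⟨-((s - b) / P), ?_⟩
  linarith


/-- the shifted positions -/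
theorem shift_ge (P s b : ℤ) (hP : 0 < P) : b ≤ b + (s - b) % P ∧ b + (s - b) % P < b + P := by
  have h1 := Int.emod_nonneg (s - b) hP.ne'
  have h2 := Int.emod_lt_of_pos (s - b) hP
  constructor <;> linarith

/-- from the values of a form to the translates -/
theorem to_good (a b : ℤ) (ha : a ≠ 0) (A U N : ℕ) (hA : a.natAbs + 2 ≤ A) (hb : |b| ≤ 2 * N)
    (F : Finset ℕ) (hF : F.Nonempty) (hU : ∀ x ∈ F, x ≤ U) :
    ((Icc 1 N).filter (fun n : ℕ => ∀ x ∈ F, (a * (n : ℤ) + (b + x)).toNat.Prime)).card ≤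
      goodN F (A * N) + (U + 1) := by
  classical
  set S := (Icc 1 N).filter (fun n : ℕ => ∀ x ∈ F, (a * (n : ℤ) + (b + x)).toNat.Prime) with hS
  set φ : ℕ → ℤ := fun n => a * (n : ℤ) + b with hφ
  have hinj : Function.Injective φ := by
    intro n n' h
    simp only [hφ] at h
    have h1 : a * ((n : ℤ) - n') = 0 := by linarith
    rcases mul_eq_zero.1 h1 with h2 | h2
    · exact absurd h2 ha
    · exact_mod_cast (sub_eq_zero.1 h2)
  obtain ⟨x₀, hx₀⟩ := hF
  have hsub : S.image φ ⊆ ((Icc 1 (A * N)).filter (fun m : ℕ => ∀ x ∈ F, (m + x).Prime)).image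
      (fun m : ℕ => (m : ℤ)) ∪ Icc (-(U : ℤ)) 0 := by
    intro m hm
    obtain ⟨n, hn, rfl⟩ := mem_image.1 hm
    rw [hS, mem_filter, mem_Icc] at hn
    obtain ⟨⟨hn1, hn2⟩, hn3⟩ := hn
    rw [mem_union]
    rcases le_or_gt (φ n) 0 with h0 | h0
    · right
      rw [mem_Icc]
      refine ⟨?_, h0⟩
      have h1 := (hn3 x₀ hx₀).pos
      have h2 := hU x₀ hx₀
      simp only [hφ]
      omega
    · left
      rw [mem_image]
      refine ⟨(φ n).toNat, ?_, Int.toNat_of_nonneg h0.le⟩
      rw [mem_filter, mem_Icc]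
      have h3 : ((φ n).toNat : ℤ) = φ n := Int.toNat_of_nonneg h0.le
      refine ⟨⟨by omega, ?_⟩, fun x hx => ?_⟩
      · have h4 : φ n ≤ A * N := by
          simp only [hφ]
          have h5 : a * (n : ℤ) ≤ |a| * N := by
            have h6 : a * (n : ℤ) ≤ |a| * n := by
              apply mul_le_mul_of_nonneg_right (le_abs_self a) (by positivity)
            have h7 : |a| * (n : ℤ) ≤ |a| * N := by
              apply mul_le_mul_of_nonneg_left _ (abs_nonneg a)
              exact_mod_cast hn2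
            linarith
          have h6 : b ≤ 2 * N := (le_abs_self b).trans hb
          have h7 : |a| + 2 ≤ A := by
            rw [Int.abs_eq_natAbs]
            exact_mod_cast hA
          have h8 : (0 : ℤ) ≤ N := by positivity
          nlinarith
        zify
        rw [h3]
        exact h4
      · have h4 := hn3 x hx
        have h5 : (a * (n : ℤ) + (b + x)).toNat = (φ n).toNat + x := by
          simp only [hφ] at h3 h0 ⊢
          omega
        rwa [h5] at h4
  have h1 := card_le_card hsub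
  rw [card_image_of_injective _ hinj] at h1
  refine h1.trans ((card_union_le _ _).trans ?_)
  have h2 : (((Icc 1 (A * N)).filter (fun m : ℕ => ∀ x ∈ F, (m + x).Prime)).image
      (fun m : ℕ => (m : ℤ))).card ≤ goodN F (A * N) := card_image_le
  have h3 : (Icc (-(U : ℤ)) 0).card = U + 1 := by
    rw [Int.card_Icc]
    omega
  omega

theorem cop_of {z : ℕ} {a v : ℤ} (ha : a ≠ 0) (haz : a.natAbs ≤ z)
    (h : ∀ p : ℕ, p.Prime → p ≤ z → ¬ (p : ℤ) ∣ v) : IsCoprime a v := by
  rw [Int.isCoprime_iff_gcd_eq_one]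
  by_contra hne
  obtain ⟨p, hp, hpd⟩ := Nat.exists_prime_and_dvd hne
  have h1 : (p : ℤ) ∣ a := (Int.natCast_dvd_natCast.2 hpd).trans (Int.gcd_dvd_left _ _)
  have h2 : (p : ℤ) ∣ v := (Int.natCast_dvd_natCast.2 hpd).trans (Int.gcd_dvd_right _ _)
  refine h p hp ?_ h2
  exact (Nat.le_of_dvd (Int.natAbs_pos.2 ha) (Int.natCast_dvd.1 h1)).trans haz

/-- the bound for the slopes -/
def AA (a : Fin 3 → ℤ) : ℕ := (∑ i, (a i).natAbs) + 2

theorem le_AA (a : Fin 3 → ℤ) (i : Fin 3) : (a i).natAbs + 2 ≤ AA a := by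
  unfold AA
  have : (a i).natAbs ≤ ∑ i, (a i).natAbs :=
    Finset.single_le_sum (f := fun i => (a i).natAbs) (fun _ _ => Nat.zero_le _) (mem_univ i)
  omega

open Classical in
/-- **the input** -/
theorem engine (T : ℕ) : ∃ K : ℕ, 1 ≤ K ∧ (1 ≤ T → ∀ (a : Fin 3 → ℤ), (∀ i, a i ≠ 0) →
    Function.Injective a → ∀ U : ℕ, ∀ᶠ N : ℕ in atTop, ∀ b : Fin 3 → ℤ, Win a b N →
    ∀ X : Fin T → Fin K → ℕ, Function.Injective (fun x : Fin T × Fin K => X x.1 x.2) →
    (∀ g c, X g c ≤ U) →
    (∀ p : ℕ, p.Prime → p ≤ AA a + 3 * T * K → ∃ r : ℤ, ∀ g c, ¬ (p : ℤ) ∣ r + X g c) →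
    (∃ i j, i ≠ j ∧ ∃ e e' : ℤ, |e| ≤ (AA a + 3 * T * K).factorial + U ∧
      |e'| ≤ (AA a + 3 * T * K).factorial + U ∧
      (N : ℝ) / (Real.log N) ^ (3 * T * K + 2) ≤ (pairN (a i) (b i + e) (a j) (b j + e') N : ℝ)) ∨
    ∃ (S : Finset (Fin T)) (c : Fin T → Fin K), (T : ℝ) ≤ (6 / 5) * (S.card : ℝ) ∧
      ((AA a * N : ℕ) : ℝ) / (Real.log ((AA a * N : ℕ) : ℝ)) ^ (3 * T * K + 3) ≤
        (goodN (S.image (fun g => X g (c g))) (AA a * N) : ℝ)) := by
  obtain ⟨K, hK, H⟩ := Pool.Agent.Y827.RO.lamRD (3 * T)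
  refine ⟨K, hK, ?_⟩
  intro hT a ha hinj U
  set z : ℕ := AA a + 3 * T * K with hz
  set P : ℕ := z.factorial with hP
  have hP0 : (0 : ℤ) < P := by exact_mod_cast Nat.factorial_pos z
  set E : ℕ := 3 * T * K + 2 with hE
  have hAA : 2 ≤ AA a := by unfold AA; omega
  -- the comparison of the two bounds
  have hcmp : ∀ᶠ N : ℕ in atTop, ((AA a * N : ℕ) : ℝ) / (Real.log ((AA a * N : ℕ) : ℝ)) ^ (E + 1) ≤
      (N : ℝ) / (Real.log N) ^ E - (U + 1 : ℕ) := by
    have h1 : ∀ᶠ N : ℕ in atTop, 2 * (AA a : ℝ) ≤ Real.log N :=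
      (Real.tendsto_log_atTop.comp tendsto_natCast_atTop_atTop).eventually_ge_atTop _
    have h2 : ∀ᶠ N : ℕ in atTop, 2 * ((U + 1 : ℕ) : ℝ) ≤ (N : ℝ) / (Real.log N) ^ E := by
      have h3 : Tendsto (fun x : ℝ => x / (Real.log x) ^ E) atTop atTop := by
        have h4 := (Real.isLittleO_pow_log_id_atTop (n := E))
        have h5 : Tendsto (fun x : ℝ => (Real.log x) ^ E / x) atTop (𝓝 0) :=
          h4.tendsto_div_nhds_zero
        have h6 : ∀ᶠ x : ℝ in atTop, 0 < (Real.log x) ^ E / x := by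
          filter_upwards [eventually_gt_atTop 1] with x hx
          have := Real.log_pos hx
          positivity
        have h7 : Tendsto (fun x : ℝ => (Real.log x) ^ E / x) atTop (𝓝[>] 0) :=
          tendsto_nhdsWithin_iff.2 ⟨h5, h6⟩
        have h8 := h7.inv_tendsto_nhdsGT_zero
        refine h8.congr fun x => ?_
        simp only [Pi.inv_apply, inv_div]
      exact (h3.comp tendsto_natCast_atTop_atTop).eventually_ge_atTop _
    filter_upwards [h1, h2, eventually_ge_atTop 3] with N hN1 hN2 hN3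
    have hA2 : (2 : ℝ) ≤ AA a := by exact_mod_cast hAA
    have hlog : 0 < Real.log N := by linarith
    have hNpos : (0 : ℝ) < N := by exact_mod_cast (by omega : 0 < N)
    have hlog2 : Real.log N ≤ Real.log ((AA a * N : ℕ) : ℝ) := by
      apply Real.log_le_log hNpos
      push_cast
      nlinarith
    have h3 : ((AA a * N : ℕ) : ℝ) / (Real.log ((AA a * N : ℕ) : ℝ)) ^ (E + 1) ≤
        ((AA a * N : ℕ) : ℝ) / (Real.log N) ^ (E + 1) := by
      apply div_le_div_of_nonneg_left (by positivity) (by positivity)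
      exact pow_le_pow_left₀ hlog.le hlog2 _
    have h4 : ((AA a * N : ℕ) : ℝ) / (Real.log N) ^ (E + 1) ≤ (N : ℝ) / (Real.log N) ^ E / 2 := by
      rw [div_div, div_le_div_iff₀ (by positivity) (by positivity)]
      push_cast
      have h5 : (Real.log N) ^ (E + 1) = (Real.log N) ^ E * Real.log N := pow_succ _ _
      rw [h5]
      have h6 : 0 < (Real.log N) ^ E := by positivity
      have h7 : (AA a : ℝ) * N * ((Real.log N) ^ E * 2) = (N * (Real.log N) ^ E) * (2 * AA a) := by ring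
      have h8 : (N : ℝ) * ((Real.log N) ^ E * Real.log N) = (N * (Real.log N) ^ E) * Real.log N := by ring
      rw [h7, h8]
      exact mul_le_mul_of_nonneg_left hN1 (by positivity)
    linarith
  filter_upwards [H (by omega) (AA a), hcmp, eventually_ge_atTop (10 * (P + U) + 1)] with N hN hNc hNP
  intro b hb X hXinj hXU hloc
  -- the residue
  obtain ⟨s, hs⟩ := crt z (univ.image (fun x : Fin T × Fin K => X x.1 x.2)) (by
    intro p hp hpz
    obtain ⟨r, hr⟩ := hloc p hp hpz
    refine ⟨r, fun x hx => ?_⟩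
    obtain ⟨⟨g, c⟩, _, rfl⟩ := mem_image.1 hx
    exact hr g c)
  have hs' : ∀ p : ℕ, p.Prime → p ≤ z → ∀ g c, ¬ (p : ℤ) ∣ s + X g c := fun p hp hpz g c =>
    hs p hp hpz _ (mem_image.2 ⟨(g, c), mem_univ _, rfl⟩)
  set b' : Fin 3 → ℤ := fun i => b i + (s - b i) % P with hb'
  have hb1 : ∀ i, b i ≤ b' i ∧ b' i < b i + P := fun i => shift_ge P s (b i) hP0
  have hb2 : ∀ p : ℕ, p.Prime → p ≤ z → ∀ i g c, ¬ (p : ℤ) ∣ b' i + X g c := by
    intro p hp hpz i g c hd
    have h1 : (P : ℤ) ∣ b' i - s := shift_dvd P s (b i)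
    have h2 : (p : ℤ) ∣ P := by exact_mod_cast (hp.dvd_factorial.2 hpz)
    have h3 := dvd_sub hd (h2.trans h1)
    have h4 : b' i + (X g c : ℤ) - (b' i - s) = s + X g c := by ring
    rw [h4] at h3
    exact hs' p hp hpz g c h3
  set π : Fin (3 * T) ≃ Fin 3 × Fin T := finProdFinEquiv.symm with hπ
  set Hf : Fin (3 * T) → Fin K → ℤ × ℤ := fun g c => (a (π g).1, b' (π g).1 + X (π g).2 c) with hHf
  have hinjH : Function.Injective (fun x : Fin (3 * T) × Fin K => Hf x.1 x.2) := by
    rintro ⟨g, c⟩ ⟨g', c'⟩ h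
    simp only [hHf, Prod.mk.injEq] at h
    have h1 : (π g).1 = (π g').1 := hinj h.1
    have h2 : X (π g).2 c = X (π g').2 c' := by
      have h3 := h.2
      rw [h1] at h3
      exact_mod_cast (by linarith : (X (π g).2 c : ℤ) = X (π g').2 c')
    have h3 : ((π g).2, c) = ((π g').2, c') := hXinj h2
    rw [Prod.mk.injEq] at h3
    have h4 : π g = π g' := Prod.ext h1 h3.1
    rw [π.injective h4, h3.2]
  have hAd : ∀ g c, Adf (AA a) N (Hf g c) := by
    intro g c
    have h0 := hb (π g).1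
    have h1 := hb1 (π g).1
    have h2 := hXU (π g).2 c
    have h3 := le_AA a (π g).1
    refine ⟨ha _, ?_, ?_, ?_, ?_⟩
    · simp only [hHf]
      rw [Int.abs_eq_natAbs]
      exact_mod_cast (by omega : (a (π g).1).natAbs ≤ AA a)
    · simp only [hHf]
      have h4 := abs_le.1 (le_refl |b (π g).1|)
      have h5 := h0.1
      have h6 : (10 * (P + U) + 1 : ℤ) ≤ N := by exact_mod_cast hNP
      have h7 : (X (π g).2 c : ℤ) ≤ U := by exact_mod_cast h2
      have h8 : (0 : ℤ) ≤ X (π g).2 c := by positivity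
      rw [abs_le]
      constructor
      · linarith [h4.1]
      · linarith [h4.2]
    · simp only [hHf]
      exact cop_of (z := z) (ha _) (by omega) (fun p hp hpz => hb2 p hp hpz _ _ _)
    · intro t ht1 ht2
      simp only [hHf]
      have h4 := h0.2 t ht1 ht2
      have h5 : ((b (π g).1 : ℤ) : ℝ) ≤ b' (π g).1 := by exact_mod_cast h1.1
      push_cast
      have h6 : (0 : ℝ) ≤ (X (π g).2 c : ℝ) := by positivity
      linarith
  obtain ⟨S, c, hS, hcnt⟩ := hN Hf hinjH hAd (by
    intro p hp hpz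
    refine ⟨0, fun g c => ?_⟩
    simp only [hHf, mul_zero, zero_add]
    exact hb2 p hp (by omega) _ _ _)
  by_cases hcross : ∃ g ∈ S, ∃ g' ∈ S, (π g).1 ≠ (π g').1
  · left
    obtain ⟨g, hg, g', hg', hne⟩ := hcross
    refine ⟨(π g).1, (π g').1, hne, (b' (π g).1 - b (π g).1) + X (π g).2 (c g),
      (b' (π g').1 - b (π g').1) + X (π g').2 (c g'), ?_, ?_, hcnt.trans ?_⟩
    · have h1 := hb1 (π g).1
      have h2 : (X (π g).2 (c g) : ℤ) ≤ U := by exact_mod_cast hXU _ _
      have h3 : (0 : ℤ) ≤ X (π g).2 (c g) := by positivity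
      rw [abs_of_nonneg (by linarith)]
      linarith
    · have h1 := hb1 (π g').1
      have h2 : (X (π g').2 (c g') : ℤ) ≤ U := by exact_mod_cast hXU _ _
      have h3 : (0 : ℤ) ≤ X (π g').2 (c g') := by positivity
      rw [abs_of_nonneg (by linarith)]
      linarith
    · rw [Nat.cast_le]
      unfold cntN pairN
      apply card_le_card
      intro n hn
      rw [mem_filter] at hn ⊢
      refine ⟨hn.1, ?_, ?_⟩
      · have h1 := hn.2 (Hf g (c g)) (mem_image.2 ⟨g, hg, rfl⟩)
        simp only [hHf] at h1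
        convert h1 using 2
        ring
      · have h1 := hn.2 (Hf g' (c g')) (mem_image.2 ⟨g', hg', rfl⟩)
        simp only [hHf] at h1
        convert h1 using 2
        ring
  · right
    push Not at hcross
    have hSne : S.Nonempty := by
      rw [← Finset.card_pos]
      by_contra h0
      have h1 : S.card = 0 := by omega
      rw [h1] at hS
      have h2 : (0 : ℝ) < ((3 * T : ℕ) : ℝ) := by exact_mod_cast (by omega : 0 < 3 * T)
      simp only [Nat.cast_zero, mul_zero] at hS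
      linarith
    obtain ⟨g₀, hg₀⟩ := hSne
    set i₀ := (π g₀).1 with hi₀
    have hall : ∀ g ∈ S, (π g).1 = i₀ := fun g hg => hcross g hg g₀ hg₀
    set S' : Finset (Fin T) := S.image (fun g => (π g).2) with hS'
    have hcard : S.card = S'.card := by
      rw [hS', card_image_of_injOn]
      intro g hg g' hg' h
      apply π.injective
      exact Prod.ext ((hall g hg).trans (hall g' hg').symm) h
    refine ⟨S', fun t => c (π.symm (i₀, t)), ?_, ?_⟩
    · rw [← hcard]
      push_cast at hS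
      linarith
    · have hF : (S'.image (fun g => X g (c (π.symm (i₀, g))))).Nonempty :=
        ⟨_, mem_image.2 ⟨(π g₀).2, mem_image.2 ⟨g₀, hg₀, rfl⟩, rfl⟩⟩
      have h1 := to_good (a i₀) (b' i₀) (ha _) (AA a) U N (le_AA a i₀) (by
        have h4 := abs_le.1 (le_refl |b i₀|)
        have h5 := (hb i₀).1
        have h6 : (10 * (P + U) + 1 : ℤ) ≤ N := by exact_mod_cast hNP
        have h7 := hb1 i₀
        rw [abs_le]
        constructor
        · linarith [h4.1]
        · linarith [h4.2]) _ hF (by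
        intro x hx
        obtain ⟨g, _, rfl⟩ := mem_image.1 hx
        exact hXU _ _)
      have h2 : cntN (S.image (fun g => Hf g (c g))) N ≤ ((Icc 1 N).filter (fun n : ℕ =>
          ∀ x ∈ (S'.image (fun g => X g (c (π.symm (i₀, g))))),
            (a i₀ * (n : ℤ) + (b' i₀ + x)).toNat.Prime)).card := by
        unfold cntN
        apply card_le_card
        intro n hn
        rw [mem_filter] at hn ⊢
        refine ⟨hn.1, fun x hx => ?_⟩
        obtain ⟨t, ht, rfl⟩ := mem_image.1 hx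
        obtain ⟨g, hg, rfl⟩ := mem_image.1 ht
        have h3 := hn.2 (Hf g (c g)) (mem_image.2 ⟨g, hg, rfl⟩)
        have h4 : π.symm (i₀, (π g).2) = g := by
          rw [Equiv.symm_apply_eq]
          exact Prod.ext (hall g hg).symm rfl
        simp only [h4]
        simp only [hHf, hall g hg] at h3
        exact h3
      have h3 : ((cntN (S.image (fun g => Hf g (c g))) N : ℕ) : ℝ) ≤
          (goodN (S'.image (fun g => X g (c (π.symm (i₀, g))))) (AA a * N) : ℝ) + (U + 1 : ℕ) := by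
        exact_mod_cast h2.trans h1
      have h4 : (N : ℝ) / (Real.log N) ^ E ≤ _ := hcnt
      have h5 : E + 1 = 3 * T * K + 3 := by omega
      rw [h5] at hNc
      linarith

end Pool.Agent.H35_TL
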