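import Mathlib
import Pool.Agent.H35_TL.Eng
import Pool.Agent.H35_TL.Comb
import Pool.Agent.W25.QL.Main
import Pool.Agent.W25.QL.Count

/-! Two of any three linear forms, or almost all quintuples. -/

set_option autoImplicit false

namespace Pool.Agent.H35_TL

open Finset Filter Topology
open Pool.Agent.W25.QL (main_gen count_pow QProp)

/-- near every position two of the three forms are simultaneously prime -/
def TwoOfThree (a : Fin 3 → ℤ) : Prop :=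
  ∃ C : ℕ, ∀ᶠ N : ℕ in atTop, ∀ b : Fin 3 → ℤ, Win a b N →
    ∃ i j, i ≠ j ∧ ∃ e e' : ℤ, |e| ≤ C ∧ |e'| ≤ C ∧
      (N : ℝ) / (Real.log N) ^ C ≤ (pairN (a i) (b i + e) (a j) (b j + e') N : ℝ)

theorem log_ge_one {N : ℕ} (hN : 3 ≤ N) : 1 ≤ Real.log N := by
  have h1 : Real.exp 1 ≤ N := by
    have := Real.exp_one_lt_d9
    have h3 : (3 : ℝ) ≤ N := by exact_mod_cast hN
    linarith
  rw [Real.le_log_iff_exp_le (by
    have : (0 : ℝ) < 3 := by norm_num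
    have h3 : (3 : ℝ) ≤ N := by exact_mod_cast hN
    linarith)]
  exact h1

/-- the sizes -/
noncomputable def Kf (T : ℕ) : ℕ := (engine T).choose

theorem Kf_pos (T : ℕ) : 1 ≤ Kf T := (engine T).choose_spec.1

open Classical in
/-- if `TwoOfThree` fails: at arbitrarily large scales all boxes contain many good classes -/
theorem good_freq (a : Fin 3 → ℤ) (ha : ∀ i, a i ≠ 0) (hinj : Function.Injective a)
    (hno : ¬ TwoOfThree a) (M U : ℕ) : ∃ᶠ N : ℕ in atTop, 3 ≤ N ∧ ∀ T : ℕ, 1 ≤ T → T ≤ M →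
    ∀ X : Fin T → Fin (Kf T) → ℕ, Function.Injective (fun x : Fin T × Fin (Kf T) => X x.1 x.2) →
    (∀ g c, X g c ≤ U) →
    (∀ p : ℕ, p.Prime → p ≤ AA a + 3 * T * Kf T → ∃ r : ℤ, ∀ g c, ¬ (p : ℤ) ∣ r + X g c) →
    ∃ (S : Finset (Fin T)) (c : Fin T → Fin (Kf T)), (T : ℝ) ≤ (6 / 5) * (S.card : ℝ) ∧
      ((AA a * N : ℕ) : ℝ) / (Real.log ((AA a * N : ℕ) : ℝ)) ^ (3 * T * Kf T + 3) ≤
        (goodN (S.image (fun g => X g (c g))) (AA a * N) : ℝ) := by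
  set C₀ : ℕ := ∑ T ∈ range (M + 1), (3 * T * Kf T + 2 + ((AA a + 3 * T * Kf T).factorial + U)) with hC₀
  have hC₀le : ∀ T ≤ M, 3 * T * Kf T + 2 + ((AA a + 3 * T * Kf T).factorial + U) ≤ C₀ := by
    intro T hT
    exact single_le_sum
      (f := fun T => 3 * T * Kf T + 2 + ((AA a + 3 * T * Kf T).factorial + U))
      (fun _ _ => Nat.zero_le _) (mem_range.2 (by omega))
  have hfail : ∃ᶠ N : ℕ in atTop, ∃ b : Fin 3 → ℤ, Win a b N ∧ ∀ i j, i ≠ j → ∀ e e' : ℤ,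
      |e| ≤ C₀ → |e'| ≤ C₀ →
      (pairN (a i) (b i + e) (a j) (b j + e') N : ℝ) < (N : ℝ) / (Real.log N) ^ C₀ := by
    unfold TwoOfThree at hno
    push Not at hno
    exact hno C₀
  have hev : ∀ᶠ N : ℕ in atTop, ∀ T ∈ range (M + 1), 1 ≤ T → ∀ b : Fin 3 → ℤ, Win a b N →
      ∀ X : Fin T → Fin (Kf T) → ℕ, Function.Injective (fun x : Fin T × Fin (Kf T) => X x.1 x.2) →
      (∀ g c, X g c ≤ U) →
      (∀ p : ℕ, p.Prime → p ≤ AA a + 3 * T * Kf T → ∃ r : ℤ, ∀ g c, ¬ (p : ℤ) ∣ r + X g c) →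
      (∃ i j, i ≠ j ∧ ∃ e e' : ℤ, |e| ≤ (AA a + 3 * T * Kf T).factorial + U ∧
        |e'| ≤ (AA a + 3 * T * Kf T).factorial + U ∧
        (N : ℝ) / (Real.log N) ^ (3 * T * Kf T + 2) ≤
          (pairN (a i) (b i + e) (a j) (b j + e') N : ℝ)) ∨
      ∃ (S : Finset (Fin T)) (c : Fin T → Fin (Kf T)), (T : ℝ) ≤ (6 / 5) * (S.card : ℝ) ∧
        ((AA a * N : ℕ) : ℝ) / (Real.log ((AA a * N : ℕ) : ℝ)) ^ (3 * T * Kf T + 3) ≤
          (goodN (S.image (fun g => X g (c g))) (AA a * N) : ℝ) := by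
    rw [Filter.eventually_all_finset]
    intro T _
    by_cases hT : 1 ≤ T
    · filter_upwards [(engine T).choose_spec.2 hT a ha hinj U] with N hN _
      exact hN
    · exact Eventually.of_forall fun N h => absurd h hT
  refine (hfail.and_eventually (hev.and (eventually_ge_atTop 3))).mono ?_
  rintro N ⟨⟨b, hb, hno'⟩, hN, hN3⟩
  refine ⟨hN3, fun T hT hTM X hXinj hXU hloc => ?_⟩
  rcases hN T (mem_range.2 (by omega)) hT b hb X hXinj hXU hloc with h | h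
  · exfalso
    obtain ⟨i, j, hij, e, e', he, he', hcnt⟩ := h
    have hle := hC₀le T hTM
    have h1 : ((AA a + 3 * T * Kf T).factorial + U : ℤ) ≤ C₀ := by
      exact_mod_cast (by omega : (AA a + 3 * T * Kf T).factorial + U ≤ C₀)
    have h2 := hno' i j hij e e' (he.trans h1) (he'.trans h1)
    have hlog := log_ge_one hN3
    have h3 : (N : ℝ) / (Real.log N) ^ C₀ ≤ (N : ℝ) / (Real.log N) ^ (3 * T * Kf T + 2) := by
      apply div_le_div_of_nonneg_left (Nat.cast_nonneg _) (by positivity)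
      exact pow_le_pow_right₀ hlog (by omega)
    linarith
  · exact h

theorem goodN_anti {F F' : Finset ℕ} (h : F' ⊆ F) (N : ℕ) : goodN F N ≤ goodN F' N := by
  unfold goodN
  apply card_le_card
  intro n hn
  rw [mem_filter] at hn ⊢
  exact ⟨hn.1, fun f hf => hn.2 f (h hf)⟩

theorem tendsto_AA (a : Fin 3 → ℤ) : Tendsto (fun N : ℕ => AA a * N) atTop atTop := by
  apply tendsto_atTop_mono (f := fun N : ℕ => N) _ tendsto_id
  intro N
  have : 1 ≤ AA a := by unfold AA; omega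
  nlinarith

open Classical in
/-- **quintuples** -/
theorem quint (a : Fin 3 → ℤ) (ha : ∀ i, a i ≠ 0) (hinj : Function.Injective a)
    (hno : ¬ TwoOfThree a) : ∃ (C : ℕ) (z : ℕ) (δ : ℝ), 0 < δ ∧ ∀ U : ℕ, ∃ᶠ N : ℕ in atTop, 3 ≤ N ∧
    ∀ (L : ℕ) (V : Fin 5 → Finset ℕ), 1 ≤ L → (∀ i, (V i).card = L ∧ ∀ x ∈ V i, x ≤ U) →
    ((badT z (fun F => (N : ℝ) / (Real.log N) ^ C ≤ (goodN F N : ℝ)) V).card : ℝ) ≤
      C * (L : ℝ) ^ (5 - δ) := by
  obtain ⟨C₁, δ, hδ, hC₁, hbad⟩ := bad_few 5 (Kf 5) (AA a + 3 * 5 * Kf 5)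
  set C : ℕ := ⌈C₁⌉₊ + (3 * 5 * Kf 5 + 3) with hC
  refine ⟨C, AA a + 3 * 5 * Kf 5, δ, hδ, fun U => ?_⟩
  have h := good_freq a ha hinj hno 5 U
  refine (tendsto_AA a).frequently (p := fun N : ℕ => 3 ≤ N ∧
    ∀ (L : ℕ) (V : Fin 5 → Finset ℕ), 1 ≤ L → (∀ i, (V i).card = L ∧ ∀ x ∈ V i, x ≤ U) →
    ((badT (AA a + 3 * 5 * Kf 5) (fun F => (N : ℝ) / (Real.log N) ^ C ≤ (goodN F N : ℝ)) V).card : ℝ) ≤
      C * (L : ℝ) ^ (5 - δ)) (h.mono ?_)
  rintro N ⟨hN3, hN⟩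
  have hAA : 1 ≤ AA a := by unfold AA; omega
  have hN3' : 3 ≤ AA a * N := by nlinarith
  refine ⟨hN3', fun L V hL hV => ?_⟩
  refine (hbad _ V L hL (fun i => (hV i).1) ?_).trans ?_
  · intro X hXinj hXV hloc
    obtain ⟨S, c, hS, hcnt⟩ := hN 5 (by norm_num) le_rfl X hXinj (fun g c => (hV g).2 _ (hXV g c)) hloc
    have hS5 : S.card = 5 := by
      have h1 : S.card ≤ 5 := by simpa using card_le_univ S
      have h2 : ¬ S.card ≤ 4 := by
        intro h4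
        have h5 : (S.card : ℝ) ≤ 4 := by exact_mod_cast h4
        have h6 : ((5 : ℕ) : ℝ) = 5 := by norm_num
        rw [h6] at hS
        linarith
      omega
    have hSu : S = univ := by
      rw [← Finset.card_eq_iff_eq_univ, hS5]
      simp
    rw [hSu] at hcnt
    refine ⟨c, le_trans ?_ hcnt⟩
    have hlog := log_ge_one hN3'
    apply div_le_div_of_nonneg_left (Nat.cast_nonneg _) (by positivity)
    exact pow_le_pow_right₀ hlog (by omega)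
  · have h1 : C₁ ≤ C := by
      have h2 := Nat.le_ceil C₁
      have h3 : ((⌈C₁⌉₊ : ℕ) : ℝ) ≤ C := by exact_mod_cast (by omega : ⌈C₁⌉₊ ≤ C)
      linarith
    have h2 : (((5 : ℕ) : ℝ) - δ) = 5 - δ := by norm_num
    rw [h2]
    apply mul_le_mul_of_nonneg_right h1
    positivity

open Classical in
/-- **tuples of any length** -/
theorem prop (a : Fin 3 → ℤ) (ha : ∀ i, a i ≠ 0) (hinj : Function.Injective a)
    (hno : ¬ TwoOfThree a) (k : ℕ) (ε : ℝ) (hε : 0 < ε) : ∃ z n₀ C : ℕ, ∀ U : ℕ,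
    ∃ᶠ N : ℕ in atTop, ∀ V : Finset ℕ, (∀ x ∈ V, x ≤ U) → n₀ ≤ V.card →
    (∀ p : ℕ, p.Prime → p ≤ z → ∃ r : ℤ, ∀ x ∈ V, ¬ (p : ℤ) ∣ r + x) →
    ((5 / 6) ^ k - ε) * (V.card : ℝ) ^ (k + 1) ≤
      (((Fintype.piFinset (fun _ : Fin (k + 1) => V)).filter (fun x => Function.Injective x ∧
        (N : ℝ) / (Real.log N) ^ C ≤ (goodN (univ.image x) N : ℝ))).card : ℝ) := by
  obtain ⟨T, M, hT, hM⟩ := main_gen (lam := 6 / 5) (by norm_num) k ((5 / 6 : ℝ) ^ k)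
    (pow_le_one₀ (by norm_num) (by norm_num)) (fun ε hε => by
      have e : (5 / 6 : ℝ) = 1 / (6 / 5) := by norm_num
      rw [e]
      exact count_pow (by norm_num) k ε hε) ε hε Kf
  obtain ⟨n₀, hn₀⟩ := hM Unit
  set z : ℕ := ∑ T' ∈ range (M + 1), (AA a + 3 * T' * Kf T') with hz
  set C : ℕ := ∑ T' ∈ range (M + 1), (3 * T' * Kf T' + 3) with hC
  refine ⟨z, n₀, C, fun U => ?_⟩
  have h := good_freq a ha hinj hno M U
  refine (tendsto_AA a).frequently (p := fun N : ℕ => ∀ V : Finset ℕ, (∀ x ∈ V, x ≤ U) →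
    n₀ ≤ V.card → (∀ p : ℕ, p.Prime → p ≤ z → ∃ r : ℤ, ∀ x ∈ V, ¬ (p : ℤ) ∣ r + x) →
    ((5 / 6) ^ k - ε) * (V.card : ℝ) ^ (k + 1) ≤
      (((Fintype.piFinset (fun _ : Fin (k + 1) => V)).filter (fun x => Function.Injective x ∧
        (N : ℝ) / (Real.log N) ^ C ≤ (goodN (univ.image x) N : ℝ))).card : ℝ)) (h.mono ?_)
  rintro N ⟨hN3, hN⟩ V hVU hVn hVloc
  have hAA : 1 ≤ AA a := by unfold AA; omega
  have hN3' : 3 ≤ AA a * N := by nlinarith
  have hlog := log_ge_one hN3'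
  refine hn₀ ℕ V (fun _ => ()) (fun F => ((AA a * N : ℕ) : ℝ) / (Real.log ((AA a * N : ℕ) : ℝ)) ^ C ≤
    (goodN F (AA a * N) : ℝ)) hVn
    (fun F F' hF h => h.trans (by exact_mod_cast goodN_anti hF _)) ?_
  intro T' hT'1 hT'M H hHV hHinj _
  obtain ⟨S, c, hS, hcnt⟩ := hN T' hT'1 hT'M H hHinj (fun g c => hVU _ (hHV g c)) (by
    intro p hp hpz
    obtain ⟨r, hr⟩ := hVloc p hp (hpz.trans
      (single_le_sum (f := fun T' => AA a + 3 * T' * Kf T') (fun _ _ => Nat.zero_le _)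
        (mem_range.2 (by omega))))
    exact ⟨r, fun g c => hr _ (hHV g c)⟩)
  refine ⟨S, c, hS, le_trans ?_ hcnt⟩
  apply div_le_div_of_nonneg_left (Nat.cast_nonneg _) (by positivity)
  refine pow_le_pow_right₀ hlog ?_
  exact single_le_sum (f := fun T' => 3 * T' * Kf T' + 3) (fun _ _ => Nat.zero_le _)
    (mem_range.2 (by omega))

end Pool.Agent.H35_TL
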